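import Mathlib

/-!
# The inversion generating function of the 2143-avoiding linear extensions of `EN_{s,3}`
-/

namespace Pool.Agent.Results.MP_071fcf_co.InversionFormula

open Finset Polynomial

/-! ### Definitions used in the statement -/

/-- The partial order of the poset `EN_{s,t}`.  The element `(j, m)` with `1 ≤ j ≤ s`,
`1 ≤ m ≤ t`, which has label `(j - 1) t + m`, is represented by `a = (j - 1) t + (m - 1)`
(the label minus one), so that `a / t = j - 1` and `a % t = m - 1`.  Then
`(j, m) ⪯ (j', m')` means `j ≥ j'` and `m ≤ m'`. -/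
def Prec (s t : ℕ) (a b : Fin (s * t)) : Prop :=
  (b : ℕ) / t ≤ (a : ℕ) / t ∧ (a : ℕ) % t ≤ (b : ℕ) % t

/-- The permutation `π`, read as the list `π 0, π 1, ...` of the elements from smallest to
largest, is a linear extension of `EN_{s,t}`: if `a ⪯ b` then `a` does not occur after `b`. -/
def IsLinearExtension (s t : ℕ) (π : Equiv.Perm (Fin (s * t))) : Prop :=
  ∀ a b, Prec s t a b → π.symm a ≤ π.symm b

/-- `π` has no subsequence `π i₁, π i₂, π i₃, π i₄` with `π i₂ < π i₁ < π i₄ < π i₃`. -/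
def Avoids2143 {n : ℕ} (π : Equiv.Perm (Fin n)) : Prop :=
  ¬ ∃ i₁ i₂ i₃ i₄ : Fin n, i₁ < i₂ ∧ i₂ < i₃ ∧ i₃ < i₄ ∧
    π i₂ < π i₁ ∧ π i₁ < π i₄ ∧ π i₄ < π i₃

/-- The number of inversions. -/
def inv {n : ℕ} (π : Equiv.Perm (Fin n)) : ℕ :=
  (univ.filter (fun p : Fin n × Fin n => p.1 < p.2 ∧ π p.2 < π p.1)).card

open Classical in
/-- The set `EN_{s,t}(2143)` of linear extensions of `EN_{s,t}` avoiding `2143`. -/
noncomputable def EN (s t : ℕ) : Finset (Equiv.Perm (Fin (s * t))) :=
  univ.filter (fun π => IsLinearExtension s t π ∧ Avoids2143 π)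

/-- The polynomial `EN_{s,t}(2143)(q) = ∑_π q ^ inv π`. -/
noncomputable def ENpoly (s t : ℕ) : ℤ[X] := ∑ π ∈ EN s t, X ^ inv π

/-- The polynomials `F_s(q)`: `F_0 = F_1 = 1` and
`F_s = (1 + q + 2 q^2) F_{s-1} + q^3 F_{s-2}` for `s ≥ 2`. -/
noncomputable def F : ℕ → ℤ[X]
  | 0 => 1
  | 1 => 1
  | s + 2 => (1 + X + 2 * X ^ 2) * F (s + 1) + X ^ 3 * F s

/-! ### Codes -/

/-- Code letters: which of three pairs between consecutive teeth are not inverted. -/
abbrev B3 := Bool × Bool × Bool

/-- Admissible code letters. -/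
def V (b : B3) : Prop := (b.1 = true → b.2.1 = true) ∧ (b.2.2 = true → b.2.1 = true)

instance : DecidablePred V := fun b => by unfold V; infer_instance

/-- Allowed consecutive letters. -/
def R (a b : B3) : Prop := ¬ (a.1 = true ∧ b.2.2 = true)

instance : DecidableRel R := fun a b => by unfold R; infer_instance

/-- Weight of a letter. -/
def w (b : B3) : ℕ := b.1.toNat + b.2.1.toNat + b.2.2.toNat

/-- Admissible code words of length `n` which may follow the letter `a`. -/
def codes (n : ℕ) (a : B3) : Finset (Fin n → B3) :=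
  univ.filter (fun c => (∀ i, V (c i)) ∧ (∀ i : Fin n, (i : ℕ) = 0 → R a (c i)) ∧
    ∀ i j : Fin n, (i : ℕ) + 1 = j → R (c i) (c j))

/-- Weighted sum over code words. -/
noncomputable def S (n : ℕ) (a : B3) : ℤ[X] := ∑ c ∈ codes n a, X ^ (∑ i, w (c i))

theorem S_zero (a : B3) : S 0 a = 1 := by
  have h : codes 0 a = {default} := by
    apply eq_singleton_iff_unique_mem.2
    refine ⟨?_, fun c _ => Subsingleton.elim _ _⟩
    simp only [codes, mem_filter, mem_univ, true_and]
    exact ⟨fun i => i.elim0, fun i => i.elim0, fun i => i.elim0⟩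
  rw [S, h]
  simp

theorem S_succ (n : ℕ) (a : B3) :
    S (n + 1) a = ∑ b ∈ univ.filter (fun b => V b ∧ R a b), X ^ w b * S n b := by
  unfold S
  simp_rw [mul_sum]
  rw [sum_sigma']
  refine sum_nbij' (fun c => ⟨c 0, fun i => c i.succ⟩) (fun s => Fin.cons s.1 s.2) ?_ ?_ ?_ ?_ ?_
  · intro c hc
    simp only [codes, mem_filter, mem_univ, true_and] at hc
    obtain ⟨h1, h2, h3⟩ := hc
    simp only [mem_sigma, codes, mem_filter, mem_univ, true_and]
    refine ⟨⟨h1 0, h2 0 rfl⟩, fun i => h1 _, ?_, ?_⟩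
    · intro i hi
      exact h3 0 i.succ (by simp [hi])
    · intro i j hij
      exact h3 _ _ (by simp [hij])
  · rintro ⟨b, c⟩ hs
    simp only [mem_sigma, codes, mem_filter, mem_univ, true_and] at hs
    obtain ⟨⟨h1, h2⟩, h3, h4, h5⟩ := hs
    simp only [codes, mem_filter, mem_univ, true_and]
    refine ⟨?_, ?_, ?_⟩
    · intro i
      refine Fin.cases ?_ (fun i => ?_) i
      · exact h1
      · exact h3 i
    · intro i hi
      have : i = 0 := Fin.ext hi
      subst this
      exact h2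
    · intro i j hij
      obtain ⟨j, rfl⟩ : ∃ j', j = Fin.succ j' := Fin.exists_succ_eq.2 (by
        rintro rfl
        simp at hij) |>.imp fun _ h => h.symm
      refine Fin.cases (fun hij => ?_) (fun i hij => ?_) i hij
      · simp only [Fin.cons_zero, Fin.cons_succ]
        exact h4 j (by simpa using hij.symm)
      · simp only [Fin.cons_succ]
        exact h5 i j (by simpa using hij)
  · intro c _
    exact Fin.cons_self_tail c
  · rintro ⟨b, c⟩ _
    simp
  · intro c _
    rw [Fin.sum_univ_succ, pow_add]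

theorem S_congr (n : ℕ) {a a' : B3} (h : a.1 = a'.1) : S n a = S n a' := by
  have : codes n a = codes n a' := by
    ext c
    unfold codes R
    rw [mem_filter, mem_filter, h]
  rw [S, S, this]

theorem S_false_succ (n : ℕ) : S (n + 1) (false, false, false) =
    (1 + X + X ^ 2) * S n (false, false, false) + (X ^ 2 + X ^ 3) * S n (true, true, true) := by
  rw [S_succ]
  have h : (univ.filter (fun b : B3 => V b ∧ R (false, false, false) b)) =
      {(false, false, false), (false, true, false), (false, true, true), (true, true, false),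
        (true, true, true)} := by
    decide
  rw [h, sum_insert (by decide), sum_insert (by decide), sum_insert (by decide),
    sum_insert (by decide), sum_singleton,
    S_congr n (a := (false, true, false)) (a' := (false, false, false)) rfl,
    S_congr n (a := (false, true, true)) (a' := (false, false, false)) rfl,
    S_congr n (a := (true, true, false)) (a' := (true, true, true)) rfl]
  simp only [w, Bool.toNat_false, Bool.toNat_true]
  ring

theorem S_true_succ (n : ℕ) : S (n + 1) (true, true, true) =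
    (1 + X) * S n (false, false, false) + X ^ 2 * S n (true, true, true) := by
  rw [S_succ]
  have h : (univ.filter (fun b : B3 => V b ∧ R (true, true, true) b)) =
      {(false, false, false), (false, true, false), (true, true, false)} := by
    decide
  rw [h, sum_insert (by decide), sum_insert (by decide), sum_singleton,
    S_congr n (a := (false, true, false)) (a' := (false, false, false)) rfl,
    S_congr n (a := (true, true, false)) (a' := (true, true, true)) rfl]
  simp only [w, Bool.toNat_false, Bool.toNat_true]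
  ring

theorem S_rec (n : ℕ) : S (n + 2) (false, false, false) =
    (1 + X + 2 * X ^ 2) * S (n + 1) (false, false, false) +
      X ^ 3 * S n (false, false, false) := by
  rw [S_false_succ (n + 1), S_true_succ n]
  have h := S_false_succ n
  linear_combination (-X ^ 2) * h

theorem S_eq_F (n : ℕ) : S n (false, false, false) = F (n + 1) ∧
    S (n + 1) (false, false, false) = F (n + 2) := by
  induction n with
  | zero =>
    refine ⟨by rw [S_zero, F], ?_⟩
    rw [S_false_succ, S_zero, S_zero]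
    simp only [F]
    ring
  | succ n ih =>
    refine ⟨ih.2, ?_⟩
    rw [S_rec, ih.1, ih.2]
    simp only [F]

/-! ### Positions from a code -/

/-- Numeric conditions on the three bit sequences. -/
structure Good (n : ℕ) (x y z : ℕ → ℕ) : Prop where
  x0 : x 0 = 0
  y0 : y 0 = 0
  z0 : z 0 = 0
  xn : x (n + 1) = 0
  yn : y (n + 1) = 0
  zn : z (n + 1) = 0
  y1 : ∀ j, y j ≤ 1
  xy : ∀ j, x j ≤ y j
  zy : ∀ j, z j ≤ y j
  xz : ∀ j, x j + z (j + 1) ≤ 1

/-- The position of the label `k`. -/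
def pos (n : ℕ) (x y z : ℕ → ℕ) (k : ℕ) : ℕ :=
  if k % 3 = 0 then 3 * (n - k / 3) - x (k / 3 + 1) - y (k / 3 + 1)
  else if k % 3 = 1 then 3 * (n - k / 3) + 1 + x (k / 3) - z (k / 3 + 1)
  else 3 * (n - k / 3) + 2 + y (k / 3) + z (k / 3)

/-- `(j, m)` occurs before `(j + 1, m')`, where `i = j + 1`. -/
def Co (x y z : ℕ → ℕ) (i m m' : ℕ) : Prop :=
  (m = 0 ∧ m' = 1 ∧ x i = 1) ∨ (m = 0 ∧ m' = 2 ∧ y i = 1) ∨ (m = 1 ∧ m' = 2 ∧ z i = 1)

/-- The comparison of positions described by the bits. -/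
def Rel (x y z : ℕ → ℕ) (k l : ℕ) : Prop :=
  l / 3 + 2 ≤ k / 3 ∨ (k / 3 = l / 3 + 1 ∧ ¬ Co x y z (k / 3) (l % 3) (k % 3)) ∨
    (k / 3 = l / 3 ∧ k % 3 < l % 3) ∨ (k / 3 + 1 = l / 3 ∧ Co x y z (l / 3) (k % 3) (l % 3))

theorem pos_zero (n : ℕ) (x y z : ℕ → ℕ) (j : ℕ) :
    pos n x y z (3 * j) = 3 * (n - j) - x (j + 1) - y (j + 1) := by
  have e1 : 3 * j / 3 = j := by omega
  have e2 : 3 * j % 3 = 0 := by omega
  rw [pos, e1, e2, if_pos rfl]

theorem pos_one (n : ℕ) (x y z : ℕ → ℕ) (j : ℕ) :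
    pos n x y z (3 * j + 1) = 3 * (n - j) + 1 + x j - z (j + 1) := by
  have e1 : (3 * j + 1) / 3 = j := by omega
  have e2 : (3 * j + 1) % 3 = 1 := by omega
  rw [pos, e1, e2, if_neg (by decide), if_pos rfl]

theorem pos_two (n : ℕ) (x y z : ℕ → ℕ) (j : ℕ) :
    pos n x y z (3 * j + 2) = 3 * (n - j) + 2 + y j + z j := by
  have e1 : (3 * j + 2) / 3 = j := by omega
  have e2 : (3 * j + 2) % 3 = 2 := by omega
  rw [pos, e1, e2, if_neg (by decide), if_neg (by decide)]

theorem label_cases (k : ℕ) : ∃ j, k = 3 * j ∨ k = 3 * j + 1 ∨ k = 3 * j + 2 :=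
  ⟨k / 3, by omega⟩

theorem pos_le {n : ℕ} {x y z : ℕ → ℕ} (h : Good n x y z) (k : ℕ) :
    pos n x y z k ≤ 3 * (n - k / 3) + 2 + y (k / 3) + z (k / 3) := by
  have a3 := h.xy (k / 3)
  unfold pos
  split_ifs <;> omega

theorem le_pos {n : ℕ} {x y z : ℕ → ℕ} (h : Good n x y z) (k : ℕ) :
    3 * (n - k / 3) - x (k / 3 + 1) - y (k / 3 + 1) ≤ pos n x y z k := by
  have a3 := h.zy (k / 3 + 1)
  have a4 := h.y1 (k / 3 + 1)
  unfold pos
  split_ifs <;> omega

theorem pos_lt_of_far {n : ℕ} {x y z : ℕ → ℕ} (h : Good n x y z) {k l : ℕ}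
    (hk : k < (n + 1) * 3) (hkl : l / 3 + 2 ≤ k / 3) : pos n x y z k < pos n x y z l := by
  have h1 := pos_le h k
  have h2 := le_pos h l
  have h3 := h.y1 (k / 3)
  have h4 := h.zy (k / 3)
  have h5 := h.y1 (l / 3 + 1)
  have h6 := h.xy (l / 3 + 1)
  rcases Nat.eq_or_lt_of_le hkl with h7 | h7
  · have h8 := h.xz (l / 3 + 1)
    rw [show l / 3 + 1 + 1 = k / 3 from h7] at h8
    omega
  · omega

theorem pos_lt_of_same {n : ℕ} {x y z : ℕ → ℕ} (h : Good n x y z) {k l : ℕ}
    (hk' : k < (n + 1) * 3) (hkl : k / 3 = l / 3) (hlt : k < l) :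
    pos n x y z k < pos n x y z l := by
  obtain ⟨j, hk⟩ := label_cases k
  have h0 : z (j + 1) = 0 ∨ 3 ≤ 3 * (n - j) := by
    rcases Nat.lt_or_ge j n with h12 | h12
    · right
      omega
    · left
      have : j = n := by omega
      rw [this]
      exact h.zn
  have hl : (k = 3 * j ∧ l = 3 * j + 1) ∨ (k = 3 * j ∧ l = 3 * j + 2) ∨
      (k = 3 * j + 1 ∧ l = 3 * j + 2) := by omega
  have h1 := h.y1 (j + 1)
  have h2 := h.zy (j + 1)
  have h3 := h.xy j
  have h4 := h.xy (j + 1)
  rcases hl with ⟨rfl, rfl⟩ | ⟨rfl, rfl⟩ | ⟨rfl, rfl⟩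
  · rw [pos_zero, pos_one]; omega
  · rw [pos_zero, pos_two]; omega
  · rw [pos_one, pos_two]; omega

/-- Comparison of the positions of labels in two consecutive teeth. -/
theorem pos_adj {n : ℕ} {x y z : ℕ → ℕ} (h : Good n x y z) {j m p : ℕ} (hj : j + 1 ≤ n)
    (hm : m < 3) (hp : p < 3) :
    pos n x y z (3 * j + m) < pos n x y z (3 * (j + 1) + p) ↔ Co x y z (j + 1) m p := by
  have h1 := h.y1 (j + 1)
  have h2 := h.zy (j + 1)
  have h3 := h.xy (j + 1)
  have h4 := h.xy j
  have h5 := h.xz j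
  have h6 := h.xz (j + 1)
  have h7 := h.y1 (j + 1 + 1)
  have h8 := h.xy (j + 1 + 1)
  have h9 := h.zy (j + 1 + 1)
  have h10 : 3 * (n - j) = 3 * (n - (j + 1)) + 3 := by omega
  have h11 : x (j + 1 + 1) = 0 ∨ 3 ≤ 3 * (n - (j + 1)) := by
    rcases Nat.eq_or_lt_of_le hj with h12 | h12
    · left
      rw [h12]
      exact h.xn
    · right
      omega
  have h12 : y (j + 1 + 1) = 0 ∨ 3 ≤ 3 * (n - (j + 1)) := by
    rcases Nat.eq_or_lt_of_le hj with h12 | h12
    · left
      rw [h12]
      exact h.yn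
    · right
      omega
  have hm' : m = 0 ∨ m = 1 ∨ m = 2 := by omega
  have hp' : p = 0 ∨ p = 1 ∨ p = 2 := by omega
  unfold Co
  rcases hm' with rfl | rfl | rfl <;> rcases hp' with rfl | rfl | rfl <;>
    simp only [Nat.add_zero, pos_zero, pos_one, pos_two, true_and] <;> omega

theorem pos_adj_ne {n : ℕ} {x y z : ℕ → ℕ} (h : Good n x y z) {j m p : ℕ} (hj : j + 1 ≤ n)
    (hm : m < 3) (hp : p < 3) :
    pos n x y z (3 * j + m) ≠ pos n x y z (3 * (j + 1) + p) := by
  have h1 := h.y1 (j + 1)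
  have h2 := h.zy (j + 1)
  have h3 := h.xy (j + 1)
  have h4 := h.xy j
  have h5 := h.xz j
  have h6 := h.xz (j + 1)
  have h7 := h.y1 (j + 1 + 1)
  have h8 := h.xy (j + 1 + 1)
  have h9 := h.zy (j + 1 + 1)
  have h10 : 3 * (n - j) = 3 * (n - (j + 1)) + 3 := by omega
  have h11 : x (j + 1 + 1) = 0 ∨ 3 ≤ 3 * (n - (j + 1)) := by
    rcases Nat.eq_or_lt_of_le hj with h12 | h12
    · left
      rw [h12]
      exact h.xn
    · right
      omega
  have h12 : y (j + 1 + 1) = 0 ∨ 3 ≤ 3 * (n - (j + 1)) := by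
    rcases Nat.eq_or_lt_of_le hj with h12 | h12
    · left
      rw [h12]
      exact h.yn
    · right
      omega
  have hm' : m = 0 ∨ m = 1 ∨ m = 2 := by omega
  have hp' : p = 0 ∨ p = 1 ∨ p = 2 := by omega
  rcases hm' with rfl | rfl | rfl <;> rcases hp' with rfl | rfl | rfl <;>
    simp only [Nat.add_zero, pos_zero, pos_one, pos_two] <;> omega

theorem pos_ne {n : ℕ} {x y z : ℕ → ℕ} (h : Good n x y z) {k l : ℕ} (hk : k < (n + 1) * 3)
    (hl : l < (n + 1) * 3) (hkl : k ≠ l) : pos n x y z k ≠ pos n x y z l := by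
  rcases Nat.lt_trichotomy (k / 3) (l / 3) with h1 | h1 | h1
  · rcases Nat.eq_or_lt_of_le (Nat.succ_le_of_lt h1) with h2 | h2
    · have e1 : 3 * (k / 3) + k % 3 = k := Nat.div_add_mod _ _
      have e2 : 3 * (k / 3 + 1) + l % 3 = l := by
        have := Nat.div_add_mod l 3
        rw [← h2] at this
        exact this
      have := pos_adj_ne h (j := k / 3) (m := k % 3) (p := l % 3) (by omega)
        (Nat.mod_lt _ (by norm_num)) (Nat.mod_lt _ (by norm_num))
      rwa [e1, e2] at this
    · exact (pos_lt_of_far h hl h2).ne'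
  · rcases Nat.lt_or_gt_of_ne hkl with h2 | h2
    · exact (pos_lt_of_same h hk h1 h2).ne
    · exact (pos_lt_of_same h hl h1.symm h2).ne'
  · rcases Nat.eq_or_lt_of_le (Nat.succ_le_of_lt h1) with h2 | h2
    · have e1 : 3 * (l / 3) + l % 3 = l := Nat.div_add_mod _ _
      have e2 : 3 * (l / 3 + 1) + k % 3 = k := by
        have := Nat.div_add_mod k 3
        rw [← h2] at this
        exact this
      have := pos_adj_ne h (j := l / 3) (m := l % 3) (p := k % 3) (by omega)
        (Nat.mod_lt _ (by norm_num)) (Nat.mod_lt _ (by norm_num))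
      rw [e1, e2] at this
      exact this.symm
    · exact (pos_lt_of_far h hk h2).ne

theorem pos_lt {n : ℕ} {x y z : ℕ → ℕ} (h : Good n x y z) {k : ℕ} (hk : k < (n + 1) * 3) :
    pos n x y z k < (n + 1) * 3 := by
  have h1 := pos_le h k
  have h3 := h.y1 (k / 3)
  have h4 := h.zy (k / 3)
  rcases Nat.eq_zero_or_pos (k / 3) with h5 | h5
  · rw [h5] at h1 h3 h4
    rw [h.y0, h.z0] at h1
    omega
  · omega

/-! ### Codes and permutations -/

/-- The letters of a code word with index shifted by one, extended by zero. -/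
def ext {n : ℕ} (c : Fin n → B3) : ℕ → B3
  | 0 => (false, false, false)
  | k + 1 => if h : k < n then c ⟨k, h⟩ else (false, false, false)

theorem ext_succ {n : ℕ} (c : Fin n → B3) (i : Fin n) : ext c (i + 1) = c i := by
  rw [ext, dif_pos i.2]

/-- The first bit sequence. -/
def bx {n : ℕ} (c : Fin n → B3) (j : ℕ) : ℕ := (ext c j).1.toNat
/-- The second bit sequence. -/
def by' {n : ℕ} (c : Fin n → B3) (j : ℕ) : ℕ := (ext c j).2.1.toNat
/-- The third bit sequence. -/
def bz {n : ℕ} (c : Fin n → B3) (j : ℕ) : ℕ := (ext c j).2.2.toNat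

/-- The code words describing the linear extensions. -/
abbrev CW (n : ℕ) : Finset (Fin n → B3) := codes n (false, false, false)

theorem mem_CW {n : ℕ} {c : Fin n → B3} : c ∈ CW n ↔
    (∀ i, V (c i)) ∧ ∀ i j : Fin n, (i : ℕ) + 1 = j → R (c i) (c j) := by
  simp only [CW, codes, mem_filter, mem_univ, true_and]
  constructor
  · rintro ⟨h1, -, h2⟩
    exact ⟨h1, h2⟩
  · rintro ⟨h1, h2⟩
    exact ⟨h1, fun i _ h => Bool.false_ne_true h.1, h2⟩

theorem V_ext {n : ℕ} {c : Fin n → B3} (hc : c ∈ CW n) (j : ℕ) : V (ext c j) := by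
  rw [mem_CW] at hc
  rcases j with _ | k
  · show V (false, false, false)
    decide
  · rw [ext]
    split_ifs with h
    · exact hc.1 _
    · decide

theorem good_of_mem {n : ℕ} {c : Fin n → B3} (hc : c ∈ CW n) :
    Good n (bx c) (by' c) (bz c) where
  x0 := rfl
  y0 := rfl
  z0 := rfl
  xn := by simp [bx, ext]
  yn := by simp [by', ext]
  zn := by simp [bz, ext]
  y1 := fun j => Bool.toNat_le _
  xy := fun j => by
    have h := V_ext hc j
    unfold bx by'
    revert h
    generalize ext c j = b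
    revert b
    decide
  zy := fun j => by
    have h := V_ext hc j
    unfold bz by'
    revert h
    generalize ext c j = b
    revert b
    decide
  xz := fun j => by
    have hR : R (ext c j) (ext c (j + 1)) := by
      rcases j with _ | k
      · rw [ext]
        rintro ⟨h, -⟩
        exact Bool.false_ne_true h
      · rw [ext, ext]
        split_ifs with h1 h2 h2
        · exact (mem_CW.1 hc).2 _ _ rfl
        · rintro ⟨-, h⟩
          exact Bool.false_ne_true h
        · omega
        · rintro ⟨h, -⟩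
          exact Bool.false_ne_true h
    unfold bx bz
    revert hR
    generalize ext c j = a
    generalize ext c (j + 1) = b
    revert a b
    decide

/-- `(j, m)` occurs before `(j + 1, m')`, in terms of the letter. -/
def CoB (b : B3) (m m' : ℕ) : Prop :=
  (m = 0 ∧ m' = 1 ∧ b.1 = true) ∨ (m = 0 ∧ m' = 2 ∧ b.2.1 = true) ∨
    (m = 1 ∧ m' = 2 ∧ b.2.2 = true)

theorem co_iff {n : ℕ} (c : Fin n → B3) (j m m' : ℕ) :
    Co (bx c) (by' c) (bz c) j m m' ↔ CoB (ext c j) m m' := by
  unfold Co CoB bx by' bz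
  simp only [Bool.toNat_eq_one]

/-- The order relation described by a code word. -/
def D {n : ℕ} (c : Fin n → B3) (a b : ℕ) : Prop :=
  b / 3 + 2 ≤ a / 3 ∨ (a / 3 = b / 3 + 1 ∧ ¬ CoB (ext c (a / 3)) (b % 3) (a % 3)) ∨
    (a / 3 = b / 3 ∧ a < b) ∨ (b / 3 = a / 3 + 1 ∧ CoB (ext c (b / 3)) (a % 3) (b % 3))

/-- Conditions characterizing membership in `EN_{n+1,3}(2143)`. -/
structure Ok {n : ℕ} (π : Equiv.Perm (Fin ((n + 1) * 3))) : Prop where
  lin : ∀ a b, Prec (n + 1) 3 a b → π.symm a ≤ π.symm b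
  far : ∀ a b : Fin ((n + 1) * 3), (b : ℕ) / 3 + 2 ≤ (a : ℕ) / 3 → π.symm a < π.symm b

theorem mem_EN_iff {n : ℕ} (π : Equiv.Perm (Fin ((n + 1) * 3))) :
    π ∈ EN (n + 1) 3 ↔ Ok π := by
  have hEN : π ∈ EN (n + 1) 3 ↔ (IsLinearExtension (n + 1) 3 π ∧ Avoids2143 π) := by
    simp [EN]
  rw [hEN]
  constructor
  · rintro ⟨h1, h2⟩
    refine ⟨h1, ?_⟩
    intro a b hab
    by_contra hcon
    have hba : π.symm b ≤ π.symm a := not_lt.1 hcon
    apply h2
    have ha := a.2
    have hb := b.2
    have e1 : 3 * ((b : ℕ) / 3) < (n + 1) * 3 := by omega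
    have e2 : 3 * ((b : ℕ) / 3) + 3 < (n + 1) * 3 := by omega
    have e3 : 3 * ((b : ℕ) / 3) + 5 < (n + 1) * 3 := by omega
    have e4 : 3 * ((a : ℕ) / 3) + 2 < (n + 1) * 3 := by omega
    have hne : π.symm b ≠ π.symm a := by
      intro h
      have := π.symm.injective h
      rw [this] at hab
      omega
    have s1 : π.symm ⟨_, e2⟩ < π.symm ⟨_, e1⟩ := by
      refine lt_of_le_of_ne (h1 _ _ ⟨?_, ?_⟩) ?_
      · show 3 * ((b : ℕ) / 3) / 3 ≤ (3 * ((b : ℕ) / 3) + 3) / 3
        omega
      · show (3 * ((b : ℕ) / 3) + 3) % 3 ≤ 3 * ((b : ℕ) / 3) % 3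
        omega
      · intro h
        have := Fin.ext_iff.1 (π.symm.injective h)
        simp only at this
        omega
    have s2 : π.symm ⟨_, e1⟩ ≤ π.symm b := by
      refine h1 _ _ ⟨?_, ?_⟩
      · show (b : ℕ) / 3 ≤ 3 * ((b : ℕ) / 3) / 3
        omega
      · show 3 * ((b : ℕ) / 3) % 3 ≤ (b : ℕ) % 3
        omega
    have s3 : π.symm a ≤ π.symm ⟨_, e4⟩ := by
      refine h1 _ _ ⟨?_, ?_⟩
      · show (3 * ((a : ℕ) / 3) + 2) / 3 ≤ (a : ℕ) / 3
        omega
      · show (a : ℕ) % 3 ≤ (3 * ((a : ℕ) / 3) + 2) % 3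
        omega
    have s4 : π.symm ⟨_, e4⟩ < π.symm ⟨_, e3⟩ := by
      refine lt_of_le_of_ne (h1 _ _ ⟨?_, ?_⟩) ?_
      · show (3 * ((b : ℕ) / 3) + 5) / 3 ≤ (3 * ((a : ℕ) / 3) + 2) / 3
        omega
      · show (3 * ((a : ℕ) / 3) + 2) % 3 ≤ (3 * ((b : ℕ) / 3) + 5) % 3
        omega
      · intro h
        have := Fin.ext_iff.1 (π.symm.injective h)
        simp only at this
        omega
    refine ⟨π.symm ⟨_, e2⟩, π.symm ⟨_, e1⟩, π.symm ⟨_, e4⟩, π.symm ⟨_, e3⟩, s1,
      lt_of_le_of_lt s2 (lt_of_lt_of_le (lt_of_le_of_ne hba hne) s3), s4, ?_, ?_, ?_⟩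
    · rw [Equiv.apply_symm_apply, Equiv.apply_symm_apply, Fin.lt_def]
      show 3 * ((b : ℕ) / 3) < 3 * ((b : ℕ) / 3) + 3
      omega
    · rw [Equiv.apply_symm_apply, Equiv.apply_symm_apply, Fin.lt_def]
      show 3 * ((b : ℕ) / 3) + 3 < 3 * ((b : ℕ) / 3) + 5
      omega
    · rw [Equiv.apply_symm_apply, Equiv.apply_symm_apply, Fin.lt_def]
      show 3 * ((b : ℕ) / 3) + 5 < 3 * ((a : ℕ) / 3) + 2
      omega
  · rintro ⟨h1, h2⟩
    refine ⟨h1, ?_⟩
    rintro ⟨i₁, i₂, i₃, i₄, h12, h23, h34, g1, g2, g3⟩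
    have lin : ∀ i j : Fin ((n + 1) * 3), i < j → ¬ Prec (n + 1) 3 (π j) (π i) := by
      intro i j hij h
      have := h1 _ _ h
      rw [Equiv.symm_apply_apply, Equiv.symm_apply_apply] at this
      exact absurd hij (not_lt.2 this)
    have far : ∀ i j : Fin ((n + 1) * 3), i < j → ¬ ((π i : ℕ) / 3 + 2 ≤ (π j : ℕ) / 3) := by
      intro i j hij h
      have := h2 _ _ h
      rw [Equiv.symm_apply_apply, Equiv.symm_apply_apply] at this
      exact absurd hij (not_lt.2 this.le)
    have k1 := lin _ _ h12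
    have k2 := lin _ _ h34
    have k3 := far _ _ h23
    unfold Prec at k1 k2
    rw [Fin.lt_def] at g1 g2 g3
    omega

/-- The label `k` as an element of `Fin`. -/
def lb (n k : ℕ) : Fin ((n + 1) * 3) := Fin.ofNat _ k

theorem lb_val {n k : ℕ} (h : k < (n + 1) * 3) : ((lb n k : Fin ((n + 1) * 3)) : ℕ) = k :=
  Nat.mod_eq_of_lt h

theorem lb_self {n : ℕ} (a : Fin ((n + 1) * 3)) : lb n a = a := Fin.ext (lb_val a.2)

/-- The code word of a permutation. -/
def code {n : ℕ} (π : Equiv.Perm (Fin ((n + 1) * 3))) (i : Fin n) : B3 :=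
  (decide (π.symm (lb n (3 * i)) < π.symm (lb n (3 * i + 4))),
    decide (π.symm (lb n (3 * i)) < π.symm (lb n (3 * i + 5))),
    decide (π.symm (lb n (3 * i + 1)) < π.symm (lb n (3 * i + 5))))

theorem Ok.lt_of_prec {n : ℕ} {π : Equiv.Perm (Fin ((n + 1) * 3))} (h : Ok π) {k l : ℕ}
    (hk : k < (n + 1) * 3) (hl : l < (n + 1) * 3) (hne : k ≠ l) (h1 : l / 3 ≤ k / 3)
    (h2 : k % 3 ≤ l % 3) : π.symm (lb n k) < π.symm (lb n l) := by
  refine lt_of_le_of_ne (h.lin _ _ ⟨?_, ?_⟩) ?_
  · rw [lb_val hk, lb_val hl]; exact h1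
  · rw [lb_val hk, lb_val hl]; exact h2
  · intro he
    have := congrArg Fin.val (π.symm.injective he)
    rw [lb_val hk, lb_val hl] at this
    exact hne this

theorem Ok.lt_of_far {n : ℕ} {π : Equiv.Perm (Fin ((n + 1) * 3))} (h : Ok π) {k l : ℕ}
    (hk : k < (n + 1) * 3) (hl : l < (n + 1) * 3) (h1 : l / 3 + 2 ≤ k / 3) :
    π.symm (lb n k) < π.symm (lb n l) := by
  refine h.far _ _ ?_
  rw [lb_val hk, lb_val hl]; exact h1

theorem code_mem {n : ℕ} {π : Equiv.Perm (Fin ((n + 1) * 3))} (h : Ok π) : code π ∈ CW n := by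
  rw [mem_CW]
  constructor
  · intro i
    have hi := i.2
    constructor
    · intro h1
      simp only [code, decide_eq_true_eq] at h1 ⊢
      exact h1.trans (h.lt_of_prec (by omega) (by omega) (by omega) (by omega) (by omega))
    · intro h1
      simp only [code, decide_eq_true_eq] at h1 ⊢
      exact lt_trans (h.lt_of_prec (by omega) (by omega) (by omega) (by omega) (by omega)) h1
  · intro i j hij
    have hi := i.2
    have hj := j.2
    rintro ⟨h1, h2⟩
    simp only [code, decide_eq_true_eq] at h1 h2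
    rw [← hij] at h2
    have h3 : π.symm (lb n (3 * i + 8)) < π.symm (lb n (3 * i)) :=
      h.lt_of_far (by omega) (by omega) (by omega)
    have e1 : 3 * ((i : ℕ) + 1) + 1 = 3 * i + 4 := by ring
    have e2 : 3 * ((i : ℕ) + 1) + 5 = 3 * i + 8 := by ring
    rw [e1, e2] at h2
    exact absurd (h1.trans (h2.trans h3)) (lt_irrefl _)

/-- Comparison of consecutive teeth via the code word. -/
theorem Ok.adj {n : ℕ} {π : Equiv.Perm (Fin ((n + 1) * 3))} (h : Ok π) {j m p : ℕ}
    (hj : j + 1 ≤ n) (hm : m < 3) (hp : p < 3) :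
    π.symm (lb n (3 * j + m)) < π.symm (lb n (3 * (j + 1) + p)) ↔
      CoB (ext (code π) (j + 1)) m p := by
  have hjn : j < n := hj
  have e : ext (code π) (j + 1) = code π ⟨j, hjn⟩ := ext_succ (code π) ⟨j, hjn⟩
  rw [e]
  have hm' : m = 0 ∨ m = 1 ∨ m = 2 := by omega
  have hp' : p = 0 ∨ p = 1 ∨ p = 2 := by omega
  have key : p ≤ m → ¬ π.symm (lb n (3 * j + m)) < π.symm (lb n (3 * (j + 1) + p)) := by
    intro hpm
    exact not_lt.2 (h.lt_of_prec (by omega) (by omega) (by omega) (by omega) (by omega)).le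
  unfold CoB code
  rcases hm' with rfl | rfl | rfl <;> rcases hp' with rfl | rfl | rfl
  · simpa using key le_rfl
  · simp [mul_add]
  · simp [mul_add]
  · simpa using key (by norm_num)
  · simpa using key le_rfl
  · simp [mul_add]
  · simpa using key (by norm_num)
  · simpa using key (by norm_num)
  · simpa using key le_rfl

theorem Ok.lt_iff {n : ℕ} {π : Equiv.Perm (Fin ((n + 1) * 3))} (h : Ok π) {k l : ℕ}
    (hk : k < (n + 1) * 3) (hl : l < (n + 1) * 3) :
    π.symm (lb n k) < π.symm (lb n l) ↔ D (code π) k l := by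
  unfold D
  rcases Nat.lt_trichotomy (k / 3) (l / 3) with h1 | h1 | h1
  · rcases Nat.eq_or_lt_of_le (Nat.succ_le_of_lt h1) with h2 | h2
    · have e1 : 3 * (k / 3) + k % 3 = k := Nat.div_add_mod _ _
      have e2 : 3 * (k / 3 + 1) + l % 3 = l := by
        have := Nat.div_add_mod l 3
        rw [← h2] at this
        exact this
      have := h.adj (j := k / 3) (m := k % 3) (p := l % 3) (by omega)
        (Nat.mod_lt _ (by norm_num)) (Nat.mod_lt _ (by norm_num))
      rw [e1, e2] at this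
      rw [this, show k / 3 + 1 = l / 3 from h2]
      constructor
      · intro h3
        exact Or.inr (Or.inr (Or.inr ⟨rfl, h3⟩))
      · rintro (h3 | h3 | h3 | h3)
        · omega
        · omega
        · omega
        · exact h3.2
    · constructor
      · intro h3
        exact absurd (h3.trans (h.lt_of_far hl hk h2)) (lt_irrefl _)
      · rintro (h3 | h3 | h3 | h3) <;> omega
  · constructor
    · intro h3
      refine Or.inr (Or.inr (Or.inl ⟨h1, ?_⟩))
      by_contra hlt
      rcases Nat.eq_or_lt_of_le (not_lt.1 hlt) with h4 | h4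
      · rw [h4] at h3
        exact lt_irrefl _ h3
      · exact absurd (h3.trans (h.lt_of_prec hl hk h4.ne h1.le (by omega))) (lt_irrefl _)
    · rintro (h3 | h3 | h3 | h3)
      · omega
      · omega
      · exact h.lt_of_prec hk hl h3.2.ne h1.ge (by omega)
      · omega
  · rcases Nat.eq_or_lt_of_le (Nat.succ_le_of_lt h1) with h2 | h2
    · have e1 : 3 * (l / 3) + l % 3 = l := Nat.div_add_mod _ _
      have e2 : 3 * (l / 3 + 1) + k % 3 = k := by
        have := Nat.div_add_mod k 3
        rw [← h2] at this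
        exact this
      have := h.adj (j := l / 3) (m := l % 3) (p := k % 3) (by omega)
        (Nat.mod_lt _ (by norm_num)) (Nat.mod_lt _ (by norm_num))
      rw [e1, e2, show l / 3 + 1 = k / 3 from h2] at this
      rw [← this]
      have hne : π.symm (lb n k) ≠ π.symm (lb n l) := by
        intro he
        have := congrArg Fin.val (π.symm.injective he)
        rw [lb_val hk, lb_val hl] at this
        omega
      constructor
      · intro h3
        exact Or.inr (Or.inl ⟨h2.symm, not_lt.2 h3.le⟩)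
      · rintro (h3 | h3 | h3 | h3)
        · omega
        · exact lt_of_le_of_ne (not_lt.1 h3.2) hne
        · omega
        · omega
    · constructor
      · intro _
        exact Or.inl h2
      · intro _
        exact h.lt_of_far hk hl h2

theorem code_inj {n : ℕ} {π π' : Equiv.Perm (Fin ((n + 1) * 3))} (h : Ok π) (h' : Ok π')
    (he : code π = code π') : π = π' := by
  have hcmp : ∀ a b, π.symm a < π.symm b ↔ π'.symm a < π'.symm b := by
    intro a b
    rw [← lb_self a, ← lb_self b, h.lt_iff a.2 b.2, h'.lt_iff a.2 b.2, he]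
  let e : Fin ((n + 1) * 3) ≃o Fin ((n + 1) * 3) :=
    (StrictMono.orderIsoOfSurjective (fun i => π'.symm (π i))
      (by
        intro i j hij
        rw [← hcmp]
        simpa using hij)
      (by
        intro k
        exact ⟨π.symm (π' k), by simp⟩))
  have he' : e = OrderIso.refl _ := Subsingleton.elim _ _
  ext i
  have h1 : e i = i := by rw [he']; rfl
  have h2 : π'.symm (π i) = i := h1
  have h3 : π i = π' i := (Equiv.symm_apply_eq π').1 h2
  rw [h3]

/-- The permutation with a given code word. -/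
theorem exists_perm {n : ℕ} {c : Fin n → B3} (hc : c ∈ CW n) :
    ∃ π : Equiv.Perm (Fin ((n + 1) * 3)), Ok π ∧ code π = c := by
  have hg := good_of_mem hc
  let f : Fin ((n + 1) * 3) → Fin ((n + 1) * 3) := fun k =>
    ⟨pos n (bx c) (by' c) (bz c) k, pos_lt hg k.2⟩
  have hf : Function.Injective f := by
    intro k l hkl
    by_contra hne
    exact pos_ne hg k.2 l.2 (fun h => hne (Fin.ext h)) (congrArg Fin.val hkl)
  let σ : Equiv.Perm (Fin ((n + 1) * 3)) :=
    Equiv.ofBijective f (Finite.injective_iff_bijective.1 hf)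
  have hσ : ∀ k, ((σ k : Fin ((n + 1) * 3)) : ℕ) = pos n (bx c) (by' c) (bz c) k := fun k => rfl
  refine ⟨σ.symm, ⟨?_, ?_⟩, ?_⟩
  · intro a b hab
    rw [Equiv.symm_symm, Fin.le_def, hσ, hσ]
    obtain ⟨h1, h2⟩ := hab
    rcases Nat.eq_or_lt_of_le h1 with h3 | h3
    · rcases Nat.lt_or_ge (a : ℕ) b with h4 | h4
      · exact (pos_lt_of_same hg a.2 h3.symm h4).le
      · have : (a : ℕ) = b := by omega
        rw [this]
    · rcases Nat.eq_or_lt_of_le (Nat.succ_le_of_lt h3) with h4 | h4
      · have e1 : 3 * ((b : ℕ) / 3) + b % 3 = b := Nat.div_add_mod _ _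
        have e2 : 3 * ((b : ℕ) / 3 + 1) + a % 3 = a := by
          have := Nat.div_add_mod (a : ℕ) 3
          rw [← h4] at this
          exact this
        have ha := a.2
        have := pos_adj hg (j := (b : ℕ) / 3) (m := b % 3) (p := a % 3) (by omega)
          (Nat.mod_lt _ (by norm_num)) (Nat.mod_lt _ (by norm_num))
        rw [e1, e2] at this
        have h5 : ¬ Co (bx c) (by' c) (bz c) ((b : ℕ) / 3 + 1) (b % 3) (a % 3) := by
          unfold Co
          omega
        exact not_lt.1 (fun h => h5 (this.1 h))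
      · exact (pos_lt_of_far hg a.2 h4).le
  · intro a b hab
    rw [Equiv.symm_symm, Fin.lt_def, hσ, hσ]
    exact pos_lt_of_far hg a.2 hab
  · funext i
    have hi := i.2
    have key : ∀ m p : ℕ, m < 3 → p < 3 →
        (σ.symm.symm (lb n (3 * i + m)) < σ.symm.symm (lb n (3 * (i + 1) + p)) ↔
          CoB (c i) m p) := by
      intro m p hm hp
      rw [Equiv.symm_symm, Fin.lt_def, hσ, hσ, lb_val (by omega), lb_val (by omega),
        pos_adj hg (by omega) hm hp, co_iff, ext_succ]
    have k1 := key 0 1 (by norm_num) (by norm_num)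
    have k2 := key 0 2 (by norm_num) (by norm_num)
    have k3 := key 1 2 (by norm_num) (by norm_num)
    simp only [CoB, mul_add, Nat.add_zero] at k1 k2 k3
    norm_num at k1 k2 k3
    have hc' : c i = ((c i).1, (c i).2.1, (c i).2.2) := rfl
    rw [hc', code]
    refine Prod.ext (Bool.eq_iff_iff.2 ?_) (Prod.ext (Bool.eq_iff_iff.2 ?_)
      (Bool.eq_iff_iff.2 ?_))
    · simp only [decide_eq_true_eq, Equiv.symm_symm]
      exact k1
    · simp only [decide_eq_true_eq, Equiv.symm_symm]
      exact k2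
    · simp only [decide_eq_true_eq, Equiv.symm_symm]
      exact k3

/-! ### Inversions -/

/-- The number of non-inverted pairs in different teeth. -/
def coinv {n : ℕ} (π : Equiv.Perm (Fin ((n + 1) * 3))) : ℕ :=
  (univ.filter (fun p : Fin ((n + 1) * 3) × Fin ((n + 1) * 3) =>
    (p.2 : ℕ) / 3 < (p.1 : ℕ) / 3 ∧ π.symm p.2 < π.symm p.1)).card

theorem card_block (n j : ℕ) (hj : j ≤ n + 1) :
    (univ.filter (fun b : Fin ((n + 1) * 3) => (b : ℕ) / 3 < j)).card = 3 * j := by
  have h : (univ.filter (fun b : Fin ((n + 1) * 3) => (b : ℕ) / 3 < j)).map Fin.valEmbedding =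
      range (3 * j) := by
    ext k
    simp only [mem_map, mem_filter, mem_univ, true_and, Fin.valEmbedding_apply, mem_range]
    constructor
    · rintro ⟨a, ha, rfl⟩
      omega
    · intro hk
      exact ⟨⟨k, by omega⟩, by show k / 3 < j; omega, rfl⟩
  rw [← card_map Fin.valEmbedding, h, card_range]

theorem sum_blocks (n : ℕ) : ∑ k ∈ range ((n + 1) * 3), 3 * (k / 3) = 9 * (n + 1).choose 2 := by
  induction n with
  | zero => decide
  | succ n ih =>
    have h : (n + 1 + 1).choose 2 = (n + 1) + (n + 1).choose 2 := by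
      rw [Nat.choose_succ_succ' (n + 1) 1, Nat.choose_one_right]
    rw [show (n + 1 + 1) * 3 = (n + 1) * 3 + 1 + 1 + 1 by ring, sum_range_succ, sum_range_succ,
      sum_range_succ, ih, h]
    omega

theorem card_pairs (n : ℕ) :
    (univ.filter (fun p : Fin ((n + 1) * 3) × Fin ((n + 1) * 3) =>
      (p.2 : ℕ) / 3 < (p.1 : ℕ) / 3)).card = 9 * (n + 1).choose 2 := by
  rw [← sum_blocks, ← Fin.sum_univ_eq_sum_range (fun k => 3 * (k / 3))]
  have h : ∀ a : Fin ((n + 1) * 3), 3 * ((a : ℕ) / 3) =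
      ∑ b : Fin ((n + 1) * 3), if (b : ℕ) / 3 < (a : ℕ) / 3 then 1 else 0 := by
    intro a
    rw [← card_block n ((a : ℕ) / 3) (by omega), card_filter]
  rw [sum_congr rfl (fun a _ => h a), card_filter, ← univ_product_univ, sum_product]

theorem inv_add_coinv {n : ℕ} {π : Equiv.Perm (Fin ((n + 1) * 3))} (h : Ok π) :
    inv π + coinv π = 9 * (n + 1).choose 2 := by
  have h1 : inv π = (univ.filter (fun p : Fin ((n + 1) * 3) × Fin ((n + 1) * 3) =>
      (p.2 : ℕ) / 3 < (p.1 : ℕ) / 3 ∧ π.symm p.1 < π.symm p.2)).card := by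
    refine card_bij (fun p _ => (π p.1, π p.2)) ?_ ?_ ?_
    · rintro ⟨i, j⟩ hp
      simp only [mem_filter, mem_univ, true_and] at hp ⊢
      refine ⟨?_, by simpa using hp.1⟩
      by_contra hcon
      have h2 : Prec (n + 1) 3 (π j) (π i) := by
        have := hp.2
        rw [Fin.lt_def] at this
        constructor <;> omega
      have := h.lin _ _ h2
      rw [Equiv.symm_apply_apply, Equiv.symm_apply_apply] at this
      exact absurd hp.1 (not_lt.2 this)
    · rintro ⟨i, j⟩ _ ⟨i', j'⟩ _ he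
      simp only [Prod.mk.injEq, EmbeddingLike.apply_eq_iff_eq] at he
      rw [he.1, he.2]
    · rintro ⟨a, b⟩ hp
      simp only [mem_filter, mem_univ, true_and] at hp
      refine ⟨(π.symm a, π.symm b), ?_, by simp⟩
      simp only [mem_filter, mem_univ, true_and, Equiv.apply_symm_apply]
      refine ⟨hp.2, ?_⟩
      rw [Fin.lt_def]
      omega
  rw [h1, coinv, ← card_pairs, ← card_union_of_disjoint]
  · congr 1
    ext ⟨a, b⟩
    simp only [mem_union, mem_filter, mem_univ, true_and]
    constructor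
    · rintro (h2 | h2)
      · exact h2.1
      · exact h2.1
    · intro h2
      have hne : π.symm a ≠ π.symm b := by
        intro he
        have := π.symm.injective he
        rw [this] at h2
        omega
      rcases lt_or_gt_of_ne hne with h3 | h3
      · exact Or.inl ⟨h2, h3⟩
      · exact Or.inr ⟨h2, h3⟩
  · rw [disjoint_left]
    rintro ⟨a, b⟩ h2 h3
    simp only [mem_filter, mem_univ, true_and] at h2 h3
    exact absurd (h2.2.trans h3.2) (lt_irrefl _)

/-- The bit with index `t` of a letter. -/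
def bit (b : B3) (t : Fin 3) : Bool := if t = 0 then b.1 else if t = 1 then b.2.1 else b.2.2

/-- The lower label of the pair with index `t`. -/
def lo (t : Fin 3) : ℕ := if t = 2 then 1 else 0
/-- The upper label of the pair with index `t`. -/
def hi (t : Fin 3) : ℕ := if t = 0 then 1 else 2

theorem bit_iff (b : B3) (t : Fin 3) : bit b t = true ↔ CoB b (lo t) (hi t) := by
  fin_cases t <;> simp [bit, lo, hi, CoB]

theorem coinv_eq {n : ℕ} {π : Equiv.Perm (Fin ((n + 1) * 3))} (h : Ok π) :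
    coinv π = ∑ i, w (code π i) := by
  have h1 : ∑ i, w (code π i) =
      (univ.filter (fun p : Fin n × Fin 3 => bit (code π p.1) p.2 = true)).card := by
    rw [card_filter, ← univ_product_univ, sum_product]
    refine sum_congr rfl fun i _ => ?_
    rw [Fin.sum_univ_three]
    show w (code π i) = (if bit (code π i) 0 = true then 1 else 0) +
      (if bit (code π i) 1 = true then 1 else 0) + if bit (code π i) 2 = true then 1 else 0
    generalize code π i = b
    revert b
    decide
  rw [h1, coinv]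
  symm
  refine card_bij (fun p _ => (lb n (3 * (p.1 + 1) + hi p.2), lb n (3 * p.1 + lo p.2))) ?_ ?_ ?_
  · rintro ⟨i, t⟩ hp
    simp only [mem_filter, mem_univ, true_and] at hp ⊢
    have hi' := i.2
    have h2 : lo t < 3 := by fin_cases t <;> simp [lo]
    have h3 : hi t < 3 := by fin_cases t <;> simp [hi]
    rw [lb_val (by omega), lb_val (by omega)]
    refine ⟨by omega, ?_⟩
    rw [h.adj (by omega) h2 h3, ext_succ, ← bit_iff]
    exact hp
  · rintro ⟨i, t⟩ _ ⟨i', t'⟩ _ he
    have hi1 := i.2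
    have hi2 := i'.2
    have h2 : lo t < 3 ∧ hi t < 3 := by fin_cases t <;> simp [lo, hi]
    have h3 : lo t' < 3 ∧ hi t' < 3 := by fin_cases t' <;> simp [lo, hi]
    have e1 := congrArg (fun p => (p.1 : ℕ)) he
    have e2 := congrArg (fun p => (p.2 : ℕ)) he
    simp only at e1 e2
    rw [lb_val (by omega), lb_val (by omega)] at e1 e2
    have e3 : (i : ℕ) = i' := by omega
    have e4 : lo t = lo t' := by omega
    have e5 : hi t = hi t' := by omega
    have e6 : t = t' := by
      revert e4 e5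
      clear * -
      revert t t'
      decide
    rw [Fin.ext e3, e6]
  · rintro ⟨a, b⟩ hp
    simp only [mem_filter, mem_univ, true_and] at hp
    have ha := a.2
    have hb := b.2
    have h2 : (a : ℕ) / 3 = (b : ℕ) / 3 + 1 := by
      by_contra hne
      exact absurd (hp.2.trans (h.far a b (by omega))) (lt_irrefl _)
    have h3 : ¬ ((a : ℕ) % 3 ≤ (b : ℕ) % 3) := by
      intro h3
      exact absurd hp.2 (not_lt.2 (h.lin a b ⟨hp.1.le, h3⟩))
    obtain ⟨t, ht1, ht2⟩ : ∃ t : Fin 3, lo t = (b : ℕ) % 3 ∧ hi t = (a : ℕ) % 3 := by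
      have h4 : ((b : ℕ) % 3 = 0 ∧ (a : ℕ) % 3 = 1) ∨ ((b : ℕ) % 3 = 0 ∧ (a : ℕ) % 3 = 2) ∨
          ((b : ℕ) % 3 = 1 ∧ (a : ℕ) % 3 = 2) := by omega
      rcases h4 with h4 | h4 | h4
      · exact ⟨0, by simp [lo, h4.1], by simp [hi, h4.2]⟩
      · exact ⟨1, by simp [lo, h4.1], by simp [hi, h4.2]⟩
      · exact ⟨2, by simp [lo, h4.1], by simp [hi, h4.2]⟩
    have hn : (b : ℕ) / 3 < n := by omega
    have e1 : lb n (3 * ((b : ℕ) / 3) + lo t) = b := by
      apply Fin.ext
      rw [lb_val (by omega)]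
      omega
    have e2 : lb n (3 * ((b : ℕ) / 3 + 1) + hi t) = a := by
      apply Fin.ext
      rw [lb_val (by omega)]
      omega
    refine ⟨(⟨(b : ℕ) / 3, hn⟩, t), ?_, ?_⟩
    · simp only [mem_filter, mem_univ, true_and]
      have h2' : lo t < 3 := by omega
      have h3' : hi t < 3 := by omega
      have h5 := h.adj (j := (b : ℕ) / 3) (m := lo t) (p := hi t) (by omega) h2' h3'
      rw [e1, e2] at h5
      rw [bit_iff]
      have h6 := h5.1 hp.2
      rw [ext, dif_pos hn] at h6
      exact h6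
    · rw [e1, e2]

/-- The generating function of the statistic `coinv`. -/
theorem sum_coinv (n : ℕ) :
    ∑ π ∈ EN (n + 1) 3, (X : ℤ[X]) ^ coinv π = F (n + 1) := by
  rw [← (S_eq_F n).1, S]
  refine sum_bij (fun π _ => code π) ?_ ?_ ?_ ?_
  · intro π hπ
    exact code_mem ((mem_EN_iff π).1 hπ)
  · intro π hπ π' hπ' he
    exact code_inj ((mem_EN_iff π).1 hπ) ((mem_EN_iff π').1 hπ') he
  · intro c hc
    obtain ⟨π, h1, h2⟩ := exists_perm hc
    exact ⟨π, (mem_EN_iff π).2 h1, h2⟩
  · intro π hπ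
    rw [coinv_eq ((mem_EN_iff π).1 hπ)]

/-- **The inversion generating function of `EN_{s,3}(2143)`.** For all `s ≥ 1`,
`EN_{s,3}(2143)(q) = q ^ (9 * (s choose 2)) * F_s(1/q)`, as Laurent polynomials in `q` with
integer coefficients (`LaurentPolynomial.T k` is `q ^ k`, and `LaurentPolynomial.invert`
replaces `q` by `1/q`). -/
theorem result (s : ℕ) (hs : 1 ≤ s) :
    (ENpoly s 3).toLaurent =
      LaurentPolynomial.T (9 * s.choose 2 : ℕ) * LaurentPolynomial.invert (F s).toLaurent := by
  obtain ⟨n, rfl⟩ : ∃ n, s = n + 1 := ⟨s - 1, by omega⟩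
  rw [← sum_coinv n, ENpoly, map_sum, map_sum, map_sum, mul_sum]
  refine sum_congr rfl fun π hπ => ?_
  have h := inv_add_coinv ((mem_EN_iff π).1 hπ)
  rw [toLaurent_X_pow, toLaurent_X_pow, LaurentPolynomial.invert_T, ← LaurentPolynomial.T_add]
  congr 1
  omega

end Pool.Agent.Results.MP_071fcf_co.InversionFormula
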